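import Mathlib

/-!
# The one-sided condition for generalised Butson Hadamard matrices does not imply the two-sided one

The ring is `(ℤ/9)[ω]` with `ω² + ω + 1 = 0`. For `t = 3 - 3ω` we have `ω t = t`, `t² = 0`, and
`c = ω² + t` satisfies `c³ = 1`, `1 + c + c² = 0`. The rows `(1, 1, 1)`, `(1, ω, ω²)`, `(1, c, c²)`
are orthogonal, but the second column has the sum `1 + ω + c = t ≠ 0`.
-/

set_option autoImplicit false

namespace Pool.Agent.Results.MP_4780e6_al.OneSided

/-- The matrix `M`, with entries in the unit group, as a matrix over the ring. -/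
def toMat {R : Type*} [Ring R] {v : ℕ} (M : Matrix (Fin v) (Fin v) Rˣ) :
    Matrix (Fin v) (Fin v) R :=
  Matrix.of fun i j => (M i j : R)

/-- The matrix `M*`: the transpose of the matrix of the entrywise inverses,
`(M*) i j = (M j i)⁻¹`. -/
def invTranspose {R : Type*} [Ring R] {v : ℕ} (M : Matrix (Fin v) (Fin v) Rˣ) :
    Matrix (Fin v) (Fin v) R :=
  Matrix.of fun i j => (((M j i)⁻¹ : Rˣ) : R)

/-- The ring `(ℤ/9)[ω]`, `ω² = -1 - ω`. -/
abbrev E : Type := QuadraticAlgebra (ZMod 9) (-1) (-1)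

/-- The unit `ω`. -/
def om : Eˣ where
  val := ⟨0, 1⟩
  inv := ⟨-1, -1⟩
  val_inv := by decide
  inv_val := by decide

/-- The unit `c = ω² + 3 - 3ω`. -/
def c : Eˣ where
  val := ⟨2, -4⟩
  inv := ⟨6, -5⟩
  val_inv := by decide
  inv_val := by decide

/-- The matrix with the rows `(1, 1, 1)`, `(1, ω, ω⁻¹)`, `(1, c, c⁻¹)`. -/
def M : Matrix (Fin 3) (Fin 3) Eˣ :=
  Matrix.of ![![1, 1, 1], ![1, om, om⁻¹], ![1, c, c⁻¹]]

instance : Finite E := Finite.of_equiv _ (QuadraticAlgebra.equivProd (-1 : ZMod 9) (-1)).symm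

/-- **Answer to Q1 (negative).** There are a finite commutative ring `R` in which `3 ≠ 0`, a
subgroup `N` of its group of units, and a `3 × 3` matrix `M` with entries in `N` such that
`M M* = 3 I` but `M* M ≠ 3 I`. -/
theorem result : ∃ (R : Type) (_ : CommRing R) (_ : Finite R) (N : Subgroup Rˣ)
    (M : Matrix (Fin 3) (Fin 3) Rˣ), ((3 : ℕ) : R) ≠ 0 ∧ (∀ i j, M i j ∈ N) ∧
      toMat M * invTranspose M = ((3 : ℕ) : R) • (1 : Matrix (Fin 3) (Fin 3) R) ∧
      invTranspose M * toMat M ≠ ((3 : ℕ) : R) • (1 : Matrix (Fin 3) (Fin 3) R) := by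
  refine ⟨E, inferInstance, inferInstance, ⊤, M, by decide, fun _ _ => trivial, ?_, ?_⟩
  · ext i j : 1
    fin_cases i <;> fin_cases j <;> decide
  · intro h
    have := congrFun (congrFun h 0) 1
    revert this
    decide

end Pool.Agent.Results.MP_4780e6_al.OneSided
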